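import Pool.Agent.H44.DU.Basic2

/-!
# Reversing the states
-/

set_option autoImplicit false

namespace Pool.Agent.H44.DU

theorem rev_mv {n : ℕ} (S : Surf n) (t : ℝ) (r : Side n) (y : ℝ) :
    S.rev.mv t r (-y) = -S.mv t r y := by
  have h1 : S.rev.a r = S.a r := rfl
  have h2 : S.rev.b r = -S.b r := rfl
  simp only [Surf.mv, h1, h2, xi_neg]
  ring

theorem pf_IO : T_IO := by
  intro n S t
  refine ⟨fun p => ?_, fun p q => ?_⟩
  · have h1 : S.rev.io t (S.io t p) = (S.gl (S.gl p.1), -S.rev.mv t (S.gl p.1) (-S.mv t p.1 p.2)) :=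
      rfl
    rw [h1, rev_mv, S.gl_gl, S.mv_gl, neg_neg]
  · have h1 : S.rev.Tr t (S.io t q) (S.io t p) ↔
      (S.rev.InJ t (S.gl q.1) (-S.mv t q.1 q.2) ∧ S.rev.InJ t (S.gl p.1) (-S.mv t p.1 p.2) ∧
        (S.gl (S.gl q.1)).1 = (S.gl p.1).1 ∧
        -S.mv t p.1 p.2 = S.rev.mv t (S.gl q.1) (-S.mv t q.1 q.2)) := Iff.rfl
    rw [h1, S.io_iff, S.io_iff, rev_mv, S.gl_gl, S.mv_gl, neg_inj]
    constructor
    · rintro ⟨a1, a2, a3, a4⟩
      exact ⟨a2, a1, a3.symm, a4.symm⟩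
    · rintro ⟨a1, a2, a3, a4⟩
      exact ⟨a2, a1, a3.symm, a4.symm⟩

end Pool.Agent.H44.DU
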