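import Pool.Agent.H44.DU.Targets

/-!
# Steps and transitions
-/

set_option autoImplicit false

namespace Pool.Agent.H44.DU

/-- Twice the signed area of the triangle with the corners `P s`, `Q s`, `z`. -/
noncomputable def stf {n : ℕ} (S : Surf n) (s : Side n) (z : ℂ) : ℝ :=
  (S.Q s - S.P s).re * (z - S.P s).im - (S.Q s - S.P s).im * (z - S.P s).re

theorem stf_seg {n : ℕ} (S : Surf n) (s : Side n) {z : ℂ}
    (hz : z ∈ openSegment ℝ (S.P s) (S.Q s)) : stf S s z = 0 := by
  obtain ⟨a, b, ha, hb, hab, rfl⟩ := hz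
  have ha' : a = 1 - b := by linarith
  subst ha'
  simp only [stf, Complex.sub_re, Complex.sub_im, Complex.add_re, Complex.add_im,
    Complex.real_smul, Complex.mul_re, Complex.mul_im, Complex.ofReal_re, Complex.ofReal_im]
  ring

theorem stf_pos {n : ℕ} (S : Surf n) (s r : Side n) (h : r.1 = s.1) (hne : r ≠ s) {z : ℂ}
    (hz : z ∈ openSegment ℝ (S.P r) (S.Q r)) : 0 < stf S s z := by
  have har := S.ar_pos s
  rcases side_cases h with h | h | h
  · exact absurd h hne
  · subst h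
    rw [S.P_nx, S.Q_nx] at hz
    obtain ⟨a, b, ha, hb, hab, rfl⟩ := hz
    have ha' : a = 1 - b := by linarith
    subst ha'
    have h1 : stf S s ((1 - b) • S.Q s + b • S.O s) = b * S.ar s := by
      simp only [stf, Surf.ar, Complex.sub_re, Complex.sub_im, Complex.add_re, Complex.add_im,
        Complex.real_smul, Complex.mul_re, Complex.mul_im, Complex.ofReal_re, Complex.ofReal_im]
      ring
    rw [h1]
    exact mul_pos hb har
  · subst h
    rw [S.P_nx_nx, S.Q_nx_nx] at hz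
    obtain ⟨a, b, ha, hb, hab, rfl⟩ := hz
    have hb' : b = 1 - a := by linarith
    subst hb'
    have h1 : stf S s (a • S.O s + (1 - a) • S.P s) = a * S.ar s := by
      simp only [stf, Surf.ar, Complex.sub_re, Complex.sub_im, Complex.add_re, Complex.add_im,
        Complex.real_smul, Complex.mul_re, Complex.mul_im, Complex.ofReal_re, Complex.ofReal_im]
      ring
    rw [h1]
    exact mul_pos ha har

theorem stf_add {n : ℕ} (S : Surf n) (s : Side n) (z : ℂ) (σ t : ℝ) :
    stf S s (z + σ * ((t : ℂ) + Complex.I)) = stf S s z + σ * (xi t (S.Q s) - xi t (S.P s)) := by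
  simp only [stf, xi, Complex.sub_re, Complex.sub_im, Complex.add_re, Complex.add_im,
    Complex.mul_re, Complex.mul_im, Complex.ofReal_re, Complex.ofReal_im, Complex.I_re,
    Complex.I_im]
  ring

theorem xi_ne_of_gd {n : ℕ} (S : Surf n) {t : ℝ} (hg : S.Gd t) (s : Side n) :
    xi t (S.P s) ≠ xi t (S.Q s) := by
  intro h
  have h0 : ∀ c : Side n, S.dev [] c = S.P c := by
    intro c
    simp [Surf.dev, Surf.A, Surf.B]
  have h1 := hg [] [] s (nx s)
  rw [h0, h0, S.P_nx] at h1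
  have h2 := h1 h
  apply S.P_ne_Q s
  apply Complex.ext
  · simp only [xi, h2] at h
    linarith
  · exact h2

theorem pf_ST (h1 : T_PT) (h2 : T_CR) : T_ST := by
  intro n S t hg
  have hne := xi_ne_of_gd S hg
  refine ⟨?_, ?_⟩
  · rintro ⟨s₀, x₀⟩ ⟨r, x⟩ ⟨a1, a2, a3, a4⟩
    simp only at a1 a2 a3 a4
    have b1 : S.InI t (S.gl s₀) x := by
      rw [a4]
      exact (S.inI_gl_iff t s₀ x₀).2 a1
    obtain ⟨p1, p2, p3, p4, p5, p6⟩ := h1 n S t (S.gl s₀) (hne _)
    obtain ⟨q1, q2, q3, q4, q5, q6⟩ := h1 n S t r (hne _)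
    obtain ⟨c1, c2⟩ := (h2 n S t x).1 (S.gl s₀) r a3 b1 a2
    have e1 : S.th t (s₀, x₀) = (S.gl s₀, S.pt t (S.gl s₀) x) := by
      rw [Surf.th, a4]
    have e2 : S.th t (r, x) = (S.gl r, S.a r * S.pt t r x + S.b r) := by
      rw [Surf.th, q2]
    rw [e1, e2]
    refine ⟨p5 x (Or.inr b1), r, (S.pt t r x).im - (S.pt t (S.gl s₀) x).im, a3.symm, ?_,
      sub_pos.2 c1, ?_, ?_, rfl⟩
    · intro h
      have h' : r = S.gl s₀ := h
      rw [← h'] at b1
      exact S.not_inI_of_inJ a2 b1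
    · simp only
      rw [← c2]
      exact q5 x (Or.inl a2)
    · simp only
      rw [← c2]
  · rintro c ⟨s, z⟩ ⟨s', z'⟩ ⟨a1, r, σ, b1, b2, b3, b4, b5, b6⟩
    simp only at a1 b1 b2 b4 b5 ⊢
    have e1 : xi t (z + σ * ((t : ℂ) + Complex.I)) = xi t z := by
      rw [xi_add, xi_mul, xi_dir, mul_zero, add_zero]
    have f1 := stf_pos S r s b1.symm b2.symm a1
    have f2 := stf_seg S r b4
    have f3 := stf_pos S s r b1 b2 b4
    have f4 := stf_seg S s a1
    rw [stf_add] at f2 f3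
    have g1 : xi t (S.Q r) < xi t (S.P r) := by
      by_contra h
      push Not at h
      have := mul_nonneg b3.le (sub_nonneg.2 h)
      linarith
    have g2 : xi t (S.P s) < xi t (S.Q s) := by
      by_contra h
      push Not at h
      have := mul_nonneg b3.le (sub_nonneg.2 h)
      nlinarith
    obtain ⟨p1, p2, p3, p4, p5, p6⟩ := h1 n S t s (hne _)
    obtain ⟨q1, q2, q3, q4, q5, q6⟩ := h1 n S t r (hne _)
    obtain ⟨k1, k2, k3⟩ := p6 _ a1
    obtain ⟨l1, l2, l3⟩ := q6 _ b4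
    rw [e1] at l1 l2
    have hq := Prod.mk.inj b5
    refine ⟨r, l2 g1, b1, ?_, b6, k3 g2, ?_⟩
    · rw [b5, Surf.th]
      simp only
      rw [← q2, l1]
    · rw [hq.2, xi_add, xi_mul, e1, Surf.mv]

end Pool.Agent.H44.DU
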