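import Pool.Agent.H44.DU.Targets

/-!
# The upper part is good in almost every direction
-/

set_option autoImplicit false

namespace Pool.Agent.H44.DU

open MeasureTheory

theorem pf_UA (h1 : T_CO) (h2 : T_TL) (h3 : T_CP) (h4 : T_NB) (h5 : T_AB) (h6 : T_QB)
    (h7 : T_GA) (h8 : T_X5) (h9 : T_PU) (h10 : T_HR) : T_UA := by
  intro n S U T hc hm hs
  obtain ⟨hI1, hI2⟩ := h3 n S U T hc hm hs
  have hI3 : ∀ s, S.Int U T s → S.a s = 1 := fun s h => h.2.2.2.2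
  have hn : 0 < n := by
    obtain ⟨s, -⟩ := hs
    exact lt_of_le_of_lt (Nat.zero_le _) s.1.2
  have habs : ∀ t : ℝ, S.Abs U t := fun t r x hr hU => ((h10 n S U T hm).1 t x r hr hU).1
  have hco : ∀ᵐ t : ℝ, S.Gd t := by
    have h := (h1 n S).measure_zero volume
    exact h
  -- the local statement
  have hloc : ∀ t₀ : ℝ, S.Gd t₀ → ∃ δ > 0, ∀ᵐ t : ℝ, |t - t₀| < δ → S.UG U t := by
    intro t₀ hg
    obtain ⟨N, hN⟩ := h2 n S t₀ (S.Int U T) hg hI3 hI1 hI2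
    obtain ⟨δ₀, hδ₀, hb⟩ := h4 n S t₀ (S.Int U T) N hg hN
    obtain ⟨C, hC, ρ, hρ, hρ1, hcon⟩ := h5 n S U T hm (|t₀| + δ₀) N
    obtain ⟨c, hc0, N', hqb⟩ := h6 n S U (|t₀| + δ₀) C ρ hC hρ hρ1
    obtain ⟨c₁, hc₁, hga⟩ := h7 n S (|t₀| + δ₀)
    have hK : ∀ t, |t - t₀| < δ₀ → |t| ≤ |t₀| + δ₀ := by
      intro t ht
      have := abs_sub_abs_le_abs_sub t t₀
      linarith
    have hctr : ∀ t, |t - t₀| < δ₀ → S.Contr U t C ρ := fun t ht =>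
      hcon t (hK t ht) (hb t ht)
    obtain ⟨δ', hδ', hae⟩ := h8 n S U t₀ δ₀ C ρ c N' hn hδ₀ hC hρ hρ1 hc0
      (fun t ht => ⟨hctr t ht, hqb t (hK t ht) (hctr t ht)⟩)
    refine ⟨min δ₀ δ', lt_min hδ₀ hδ', ?_⟩
    filter_upwards [hae, hco] with t ht1 ht2 ht3
    obtain ⟨m, hm0, hnb⟩ := ht1 (ht3.trans_le (min_le_right _ _))
    have ht4 := ht3.trans_le (min_le_left _ _)
    exact h9 n S U t c₁ C ρ m (habs t) ht2 hc₁ (hga t (hK t ht4)) hC hρ hρ1 (hctr t ht4) hm0 hnb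
  -- the global statement
  have hz : volume {t : ℝ | ¬ S.UG U t ∧ S.Gd t} = 0 := by
    apply measure_null_of_locally_null
    rintro t₀ ⟨-, hg⟩
    obtain ⟨δ, hδ, hae⟩ := hloc t₀ hg
    refine ⟨{t : ℝ | ¬ (|t - t₀| < δ → S.UG U t)}, ?_, hae⟩
    rw [mem_nhdsWithin_iff_exists_mem_nhds_inter]
    refine ⟨Metric.ball t₀ δ, Metric.ball_mem_nhds t₀ hδ, ?_⟩
    rintro t ⟨ht1, ht2, -⟩ ht3
    exact ht2 (ht3 (by rwa [Metric.mem_ball, Real.dist_eq] at ht1))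
  have hz' : ∀ᵐ t : ℝ, ¬ (¬ S.UG U t ∧ S.Gd t) := by
    rw [ae_iff]
    simpa only [not_not] using hz
  filter_upwards [hz', hco] with t ht1 ht2
  by_contra h
  exact ht1 ⟨h, ht2⟩

end Pool.Agent.H44.DU
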